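import Pool.Agent.helper48.PR.SpecL

/-!
# Project pr, module LDET: determinants are one
-/

set_option autoImplicit false

namespace Pool.Agent.PR

open Matrix

theorem LDET_det {n : ℕ} {R : Type} [CommRing R] (m : ℕ) (A B : Matrix (Fin n) (Fin n) R)
    (h : MC m A B) : (m : R) ∣ A.det - B.det := by
  rw [← Ideal.mem_span_singleton, ← Ideal.Quotient.eq, RingHom.map_det, RingHom.map_det]
  congr 1
  ext i j
  rw [RingHom.mapMatrix_apply, RingHom.mapMatrix_apply, Matrix.map_apply, Matrix.map_apply,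
    Ideal.Quotient.eq, Ideal.mem_span_singleton]
  exact h i j

theorem LDET_zero {q : ℕ} [hq : Fact q.Prime] (x : ℤ_[q])
    (h : ∀ m : ℕ, m ≠ 0 → (m : ℤ_[q]) ∣ x) : x = 0 := by
  have h1 : ∀ k : ℕ, ‖x‖ ≤ ((q : ℝ)⁻¹) ^ k := by
    intro k
    obtain ⟨c, hc⟩ := h (q ^ k) (pow_ne_zero k hq.out.ne_zero)
    rw [hc, Nat.cast_pow, norm_mul, norm_pow, PadicInt.norm_p]
    exact mul_le_of_le_one_right (by positivity) (PadicInt.norm_le_one c)
  have h2 : Filter.Tendsto (fun k : ℕ => ((q : ℝ)⁻¹) ^ k) Filter.atTop (nhds 0) := by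
    refine tendsto_pow_atTop_nhds_zero_of_lt_one (by positivity) ?_
    exact inv_lt_one_of_one_lt₀ (by exact_mod_cast hq.out.one_lt)
  have h3 : ‖x‖ ≤ 0 := ge_of_tendsto h2 (Filter.Eventually.of_forall h1)
  exact norm_le_zero_iff.1 h3

theorem LDET_sd {n : ℕ} (s : Bool) (F : Type) [CommRing F] (γ : SLZ n) : (sdM s F γ).det = 1 := by
  unfold sdM
  split_ifs
  · exact det_stdM F γ
  · exact det_duM F γ

theorem LDET (hLGG : LGG_stmt) : LDET_stmt := by
  intro n hn Λ _ hΛ f hf q l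
  obtain ⟨_, X, Y, s, hXY, h1, -⟩ := hLGG n hn Λ hΛ Unit 1 f hf
  have h2 : (f q l : Matrix (Fin n) (Fin n) ℤ_[(q : ℕ)]).det - 1 = 0 := by
    refine LDET_zero _ fun m hm => ?_
    obtain ⟨γ, -, hγ⟩ := h1 m hm l
    have h3 := LDET_det m _ _ (hγ q)
    have h4 : (X q * sdM (s q) ℤ_[(q : ℕ)] γ * Y q).det = 1 := by
      rw [Matrix.det_mul, Matrix.det_mul, LDET_sd, mul_one, ← Matrix.det_mul, (hXY q).1,
        Matrix.det_one]
    rw [h4] at h3
    exact h3
  exact sub_eq_zero.1 h2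

end Pool.Agent.PR
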