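import Pool.Agent.helper48.PR.SpecC

/-!
# Project pr, module C13: the classification over any field of characteristic zero
-/

set_option autoImplicit false

namespace Pool.Agent.PR

open Matrix

theorem C13_std_el {n : ℕ} (F : Type) [Field F] {i j : Fin n} (h : i ≠ j) (a : ℤ) :
    stdM F (el i j h a) = 1 + Matrix.single i j (a : F) := by
  unfold stdM
  rw [el_coe]
  ext k l
  simp only [Matrix.map_apply, Matrix.add_apply, Matrix.one_apply, Matrix.single_apply]
  split_ifs <;> simp

theorem C13_du_el {n : ℕ} (F : Type) [Field F] {i j : Fin n} (h : i ≠ j) :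
    duM F (el i j h 1) = 1 - Matrix.single j i (1 : F) := by
  unfold duM
  rw [← el_neg, C13_std_el]
  rw [Matrix.transpose_add, Matrix.transpose_one, Matrix.transpose_single]
  rw [Int.cast_neg, Int.cast_one, sub_eq_add_neg, Matrix.single_neg]

/-- conjugation of a homomorphism to matrices -/
def C13_conj {n : ℕ} {F : Type} [Field F] (f : SLZ n →* Matrix (Fin n) (Fin n) F)
    (x y : Matrix (Fin n) (Fin n) F) (h : x * y = 1) (h' : y * x = 1) :
    SLZ n →* Matrix (Fin n) (Fin n) F where
  toFun γ := x * f γ * y
  map_one' := by rw [map_one, mul_one, h]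
  map_mul' γ δ := by
    rw [map_mul]
    calc x * (f γ * f δ) * y = x * f γ * 1 * f δ * y := by
          rw [mul_one, ← mul_assoc]
      _ = x * f γ * (y * x) * f δ * y := by rw [h']
      _ = x * f γ * y * (x * f δ * y) := by simp only [mul_assoc]

theorem C13 (h11 : C11_stmt) (h12 : C12_stmt) : C13_stmt := by
  intro n hn F _ _ r hr
  obtain ⟨r', hr'⟩ : ∃ r' : SLZ n →* Matrix (Fin n) (Fin n) (AlgebraicClosure F),
      ∀ γ, r' γ = (r γ).map (algebraMap F (AlgebraicClosure F)) :=
    ⟨((algebraMap F (AlgebraicClosure F)).mapMatrix : Matrix (Fin n) (Fin n) F →+*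
      Matrix (Fin n) (Fin n) (AlgebraicClosure F)).toMonoidHom.comp r, fun γ => rfl⟩
  have hinj : Function.Injective
      (fun M : Matrix (Fin n) (Fin n) F => M.map (algebraMap F (AlgebraicClosure F))) :=
    Matrix.map_injective (algebraMap F (AlgebraicClosure F)).injective
  have hinf : (Set.range r').Infinite := by
    have h1 : Set.range r' =
        (fun M : Matrix (Fin n) (Fin n) F => M.map (algebraMap F (AlgebraicClosure F))) ''
          Set.range r := by
      rw [← Set.range_comp]
      congr 1
      funext γ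
      exact hr' γ
    rw [h1]
    exact hr.image hinj.injOn
  obtain ⟨x, y, hxy, hyx, h | h⟩ := h11 n hn (AlgebraicClosure F) r' hinf
  · obtain ⟨f, hf⟩ : ∃ f : Fin n → Fin n → Matrix (Fin n) (Fin n) F,
        ∀ i j (h : i ≠ j), f i j = r (el i j h 1) - 1 :=
      ⟨fun i j => if h : i ≠ j then r (el i j h 1) - 1 else 0, fun i j h => by simp [h]⟩
    obtain ⟨x', y', h1, h2, h3⟩ := h12 n hn F (AlgebraicClosure F) f x y hxy hyx (by
      intro i j hij
      rw [hf i j hij]
      have e1 := h (el i j hij 1)
      rw [hr', C13_std_el, Int.cast_one] at e1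
      have e2 : (r (el i j hij 1) - 1).map (algebraMap F (AlgebraicClosure F)) =
          (r (el i j hij 1)).map (algebraMap F (AlgebraicClosure F)) - 1 := by
        rw [Matrix.map_sub _ (fun a b => map_sub _ a b), Matrix.map_one _ (map_zero _) (map_one _)]
      rw [e2, e1, mul_add, add_mul, mul_one, hxy, add_sub_cancel_left])
    refine ⟨x', y', h1, h2, Or.inl ?_⟩
    have key : r = C13_conj (stdHom n F) x' y' h1 h2 := by
      refine hom_ext _ _ fun i j hij => ?_
      change r (el i j hij 1) = x' * stdM F (el i j hij 1) * y'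
      have e1 := h3 i j hij
      rw [hf i j hij] at e1
      rw [C13_std_el, Int.cast_one, mul_add, add_mul, mul_one, h1, ← e1]
      abel
    intro γ
    exact DFunLike.congr_fun key γ
  · obtain ⟨f, hf⟩ : ∃ f : Fin n → Fin n → Matrix (Fin n) (Fin n) F,
        ∀ i j (h : j ≠ i), f i j = 1 - r (el j i h 1) :=
      ⟨fun i j => if h : j ≠ i then 1 - r (el j i h 1) else 0, fun i j h => by simp [h]⟩
    obtain ⟨x', y', h1, h2, h3⟩ := h12 n hn F (AlgebraicClosure F) f x y hxy hyx (by
      intro i j hij
      rw [hf i j hij.symm]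
      have e1 := h (el j i hij.symm 1)
      rw [hr', C13_du_el] at e1
      have e2 : (1 - r (el j i hij.symm 1)).map (algebraMap F (AlgebraicClosure F)) =
          1 - (r (el j i hij.symm 1)).map (algebraMap F (AlgebraicClosure F)) := by
        rw [Matrix.map_sub _ (fun a b => map_sub _ a b), Matrix.map_one _ (map_zero _) (map_one _)]
      rw [e2, e1, mul_sub, sub_mul, mul_one, hxy, sub_sub_cancel])
    refine ⟨x', y', h1, h2, Or.inr ?_⟩
    have key : r = C13_conj (duHom n F) x' y' h1 h2 := by
      refine hom_ext _ _ fun i j hij => ?_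
      change r (el i j hij 1) = x' * duM F (el i j hij 1) * y'
      have e1 := h3 j i hij.symm
      rw [hf j i hij] at e1
      rw [C13_du_el, mul_sub, sub_mul, mul_one, h1, ← e1]
      abel
    intro γ
    exact DFunLike.congr_fun key γ

end Pool.Agent.PR
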